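import Mathlib
import Pool.Agent.H41.EntDefs
import Pool.Agent.H41.RotD

set_option autoImplicit false

namespace Pool.Agent.Results.MP_3f0cb5_an.Discontinuous

open Pool.Agent.H41.Rot

/-- The function `θ ↦ h(θ)`, Bowen's topological entropy of the shift on the set of points with
fiberwise bounded orbit of the cocycle `A_θ`, is not continuous at `θ = 0`
(the proof gives `h 0 = 0` and a positive lower bound on `(0, 1/100]`). -/
theorem result : ¬ ContinuousAt (fun θ : ℝ => bowenEntropy shift (boundedOrbits θ)) 0 :=
  not_continuousAt

end Pool.Agent.Results.MP_3f0cb5_an.Discontinuous
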